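import Pool.Agent.Q68.HY.Hyper

/-!
# A map with linear order of growth whose hyperspace map has entropy zero

There are a compact metric space `X` and a continuous map `T : X → X` such that the generalized
entropy `o(T) = sup {[Span (T, n, ε)] : ε > 0}`, computed in the Dedekind-MacNeille completion of the
orders of growth, is `[n]`, and the induced map `T_K` on the space of the nonempty closed subsets of
`X` with the Hausdorff metric has topological entropy zero.

The example is the subshift of the codings of an irrational rotation. The number of its words of
length `N` lies between `N + 1` and `2 N + 1`. The sets of the times `i < n` at which a closed set
meets `T ^ (-i) [w]`, for a fixed word `w`, form a family of bounded Vapnik-Chervonenkis dimension,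
because arcs of the same length, each of which has a point which is in none of the other ones, are
bounded in number. By the Sauer-Shelah lemma there are only polynomially many orbit patterns of
length `n` for the hyperspace map.
-/

set_option autoImplicit false

namespace Pool.Agent.Results.MP_2aac2f_an.SturmianHyperspace

open Pool.Agent.Q68.HY TopologicalSpace

/-- There are a compact metric space and a continuous map `T` of it with `o(T) = [n]` whose
hyperspace map has topological entropy zero. -/
theorem result : ∃ (X : Type) (_ : MetricSpace X) (_ : CompactSpace X) (T : X → X)
    (hT : Continuous T), orderOfGrowth hT = linearSeq.cls ∧
      entropy (NonemptyCompacts.map T hT) = 0 :=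
  ⟨Sp (Real.sqrt 2), inferInstance, inferInstance, shift (Real.sqrt 2), continuous_shift,
    orderOfGrowth_shift irrational_sqrt_two, entropy_hmap irrational_sqrt_two⟩

end Pool.Agent.Results.MP_2aac2f_an.SturmianHyperspace
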